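import Pool.Agent.Helper5.KZ.Stm3

/-! # Piece SFIN of helper5's project KZ -/

set_option autoImplicit false

open MonoidAlgebra

namespace Pool.Agent.Helper71.KZ

open Pool.Agent.Helper5.KZ

section

variable {k : Type} [DivisionRing k] {G : Type} [Group G] (C : Subgroup G)

theorem mR_coeff (f : MonoidAlgebra k C) :
    (mR k C.subtype f).coeff = Finsupp.mapDomain C.subtype f.coeff := rfl

theorem mR_inj : Function.Injective (mR k C.subtype) :=
  MonoidAlgebra.mapDomain_injective (R := k) (f := C.subtype) Subtype.val_injective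

theorem supp_mR (f : MonoidAlgebra k C) (g : G) (hg : g ∈ (mR k C.subtype f).coeff.support) :
    g ∈ C := by
  classical
  rw [mR_coeff] at hg
  have := Finsupp.mapDomain_support hg
  rw [Finset.mem_image] at this
  obtain ⟨x, _, hx⟩ := this
  rw [← hx]
  exact x.2

theorem exists_mR (f : MonoidAlgebra k G) (hf : ∀ g ∈ f.coeff.support, g ∈ C) :
    ∃ f' : MonoidAlgebra k C, mR k C.subtype f' = f := by
  classical
  refine ⟨MonoidAlgebra.ofCoeff (f.coeff.comapDomain C.subtype
    (fun a _ b _ h => Subtype.val_injective h)), ?_⟩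
  apply MonoidAlgebra.ext
  rw [mR_coeff]
  show Finsupp.mapDomain C.subtype (f.coeff.comapDomain C.subtype _) = f.coeff
  apply Finsupp.mapDomain_comapDomain
  · exact Subtype.val_injective
  · intro g hg
    exact ⟨⟨g, hf g hg⟩, rfl⟩

end

theorem t_sfin : Pool.Agent.Helper5.KZ.S_SFIN := by
  intro k _ G _ C N _ _ N₀ N₁ _ _ i hi hN hsl hSF
  classical
  obtain ⟨a, b, ⟨e⟩⟩ := hSF
  set ρ := mR k C.subtype with hρ
  -- the map Φ
  let Φ : (N₁ × (Fin a → MonoidAlgebra k C)) →+ (N × (Fin a → MonoidAlgebra k G)) :=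
    { toFun := fun z => (i z.1, fun j => ρ (z.2 j))
      map_zero' := by
        refine Prod.ext ?_ ?_
        · simp
        · funext j; simp
      map_add' := fun x y => by
        refine Prod.ext ?_ ?_
        · simp
        · funext j; simp }
  have Φ1 : ∀ z, (Φ z).1 = i z.1 := fun _ => rfl
  have Φ2 : ∀ z j, (Φ z).2 j = ρ (z.2 j) := fun _ _ => rfl
  have Φinj : ∀ z, Φ z = 0 → z = 0 := by
    intro z hz
    refine Prod.ext ?_ ?_
    · apply hi
      rw [← Φ1, hz]; simp
    · funext j
      apply mR_inj C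
      rw [← hρ, ← Φ2, hz]; simp
  have Φsm : ∀ (c : MonoidAlgebra k C) z, Φ (c • z) = ρ c • Φ z := by
    intro c z
    refine Prod.ext ?_ ?_
    · rw [Φ1, Prod.smul_fst, Prod.smul_fst, Φ1]
      exact hsl c z.1
    · funext j
      rw [Φ2, Prod.smul_snd, Prod.smul_snd, Pi.smul_apply, Pi.smul_apply, Φ2, smul_eq_mul,
        smul_eq_mul, map_mul]
  have Φbox : ∀ z, Φ z ∈ Box (k := k) C N₀ a := by
    intro z
    refine ⟨?_, ?_⟩
    · rw [Φ1, hN]; exact ⟨_, rfl⟩
    · intro j g hg
      exact supp_mR C (z.2 j) g hg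
  have Φsurj : ∀ y ∈ Box (k := k) C N₀ a, ∃ z, Φ z = y := by
    rintro y ⟨h1, h2⟩
    obtain ⟨x, hx⟩ := (hN _).mp h1
    choose v hv using fun j => exists_mR C (y.2 j) (h2 j)
    refine ⟨(x, v), ?_⟩
    refine Prod.ext hx ?_
    funext j
    exact hv j
  let d : Fin b → N × (Fin a → MonoidAlgebra k G) := fun j => Φ (e.symm (Pi.single j 1))
  have key : ∀ c : Fin b → MonoidAlgebra k C, ∑ j, ρ (c j) • d j = Φ (e.symm c) := by
    intro c
    have h1 : c = ∑ j, c j • (Pi.single j (1 : MonoidAlgebra k C) : Fin b → MonoidAlgebra k C) := by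
      funext l
      rw [Finset.sum_apply]
      simp [Pi.single_apply]
    conv_rhs => rw [h1]
    rw [map_sum, map_sum]
    refine Finset.sum_congr rfl fun j _ => ?_
    rw [map_smul, Φsm]
  refine ⟨a, b, d, fun j => Φbox _, ?_, ?_⟩
  · intro y hy
    obtain ⟨z, hz⟩ := Φsurj y hy
    refine ⟨fun j => ρ (e z j), fun j g hg => supp_mR C _ g hg, ?_⟩
    rw [key, e.symm_apply_apply, hz]
  · intro c hc h0
    choose c' hc' using fun j => exists_mR C (c j) (hc j)
    have h1 : ∑ j, ρ (c' j) • d j = 0 := by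
      rw [← h0]
      exact Finset.sum_congr rfl fun j _ => by rw [hρ, hc']
    rw [key] at h1
    have h2 := Φinj _ h1
    have h3 : c' = 0 := by
      have := congrArg e h2
      rwa [e.apply_symm_apply, map_zero] at this
    funext j
    rw [← hc' j, h3]
    simp

end Pool.Agent.Helper71.KZ
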