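import Pool.Agent.Helper19.KZ.TreeStm

/-! # Piece EXACT of helper19 / helper5's project KZ -/

set_option autoImplicit false

namespace Pool.Agent.Helper71.KZ

open scoped Classical
open FreeGroup Pool.Agent.Helper19.KZ

variable {X : Type}

lemma split {α : Type} : ∀ x y : List α, ∃ p x1 y1, x = p ++ x1 ∧ y = p ++ y1 ∧
    (∀ a ∈ x1.head?, ∀ b ∈ y1.head?, a ≠ b)
  | [], y => ⟨[], [], y, rfl, rfl, by simp⟩
  | x, [] => ⟨[], x, [], rfl, rfl, by simp⟩
  | a :: x, b :: y => by
    by_cases h : a = b
    · subst h
      obtain ⟨p, x1, y1, h1, h2, h3⟩ := split x y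
      exact ⟨a :: p, x1, y1, by rw [h1]; rfl, by rw [h2]; rfl, h3⟩
    · exact ⟨[], a :: x, b :: y, rfl, rfl, by simpa using h⟩

lemma red_invRev {x : List (X × Bool)} (hx : IsReduced x) : IsReduced (invRev x) := by
  rw [isReduced_iff_reduce_eq] at hx ⊢
  rw [reduce_invRev, hx]

lemma red_inv_append {x y : List (X × Bool)} (hx : IsReduced x) (hy : IsReduced y)
    (hd : ∀ a ∈ x.head?, ∀ b ∈ y.head?, a ≠ b) : IsReduced (invRev x ++ y) := by
  have h1 := red_invRev hx
  unfold FreeGroup.IsReduced at *
  rw [List.isChain_append]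
  refine ⟨h1, hy, ?_⟩
  cases x with
  | nil => simp
  | cons a t =>
    intro u hu b hb e
    rw [invRev_cons] at hu
    simp only [invRev, List.map_cons, List.map_nil, List.reverse_cons, List.reverse_nil,
      List.nil_append, List.getLast?_append, List.getLast?_singleton, Option.some_or,
      Option.mem_def, Option.some.injEq] at hu
    subst hu
    have := hd a (by simp) b hb
    simp only at e ⊢
    rcases a with ⟨a1, a2⟩
    rcases b with ⟨b1, b2⟩
    simp only at e
    subst e
    simp only [ne_eq, Prod.mk.injEq, true_and] at this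
    cases a2 <;> cases b2 <;> simp_all

lemma dist_eq {x y : FreeGroup X} {p x1 y1 : List (X × Bool)} (hx : x.toWord = p ++ x1)
    (hy : y.toWord = p ++ y1) (hd : ∀ a ∈ x1.head?, ∀ b ∈ y1.head?, a ≠ b) :
    (x⁻¹ * y).norm = x1.length + y1.length := by
  have ex : x = mk p * mk x1 := by rw [mul_mk, ← hx, mk_toWord]
  have ey : y = mk p * mk y1 := by rw [mul_mk, ← hy, mk_toWord]
  have rx : FreeGroup.IsReduced x1 :=
    (List.isChain_append.mp (hx ▸ isReduced_toWord (x := x) : FreeGroup.IsReduced (p ++ x1))).2.1
  have ry : FreeGroup.IsReduced y1 :=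
    (List.isChain_append.mp (hy ▸ isReduced_toWord (x := y) : FreeGroup.IsReduced (p ++ y1))).2.1
  have : x⁻¹ * y = mk (invRev x1 ++ y1) := by
    rw [ex, ey, ← mul_mk, ← inv_mk]
    group
  rw [this, FreeGroup.norm, toWord_mk, (red_inv_append rx ry hd).reduce_eq]
  simp

lemma toWord_mk_left {g : FreeGroup X} {w : List (X × Bool)} {c : List (X × Bool)}
    (hg : g.toWord = w ++ c) : (mk w).toWord = w := by
  rw [toWord_mk]
  have hr : FreeGroup.IsReduced w :=
    (List.isChain_append.mp (hg ▸ isReduced_toWord (x := g) : FreeGroup.IsReduced (w ++ c))).1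
  exact hr.reduce_eq

lemma par {g h : FreeGroup X} {w : List (X × Bool)} {c : X × Bool}
    (hg : g.toWord = w ++ [c]) (hh : ¬ (g.toWord <+: h.toWord)) (z : FreeGroup X) :
    ((mk w)⁻¹ * z).norm ≤ max ((g⁻¹ * z).norm) ((h⁻¹ * z).norm) := by
  have hw := toWord_mk_left hg
  by_cases hz : g.toWord <+: z.toWord
  · obtain ⟨t, ht⟩ := hz
    rw [hg] at ht
    have h1 : ((mk w)⁻¹ * z).norm = ([] : List (X × Bool)).length + (c :: t).length :=
      dist_eq (p := w) (by rw [hw]; simp) (by rw [← ht]; simp) (by simp)
    obtain ⟨p, x1, y1, e1, e2, e3⟩ := split h.toWord z.toWord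
    have h2 := dist_eq e1 e2 e3
    have h3 : p.length < g.toWord.length := by
      by_contra hcon
      rw [not_lt] at hcon
      apply hh
      have q1 : g.toWord <+: z.toWord := ⟨t, by rw [hg, ht]⟩
      have q2 : p <+: z.toWord := ⟨y1, e2.symm⟩
      exact (List.prefix_of_prefix_length_le q1 q2 hcon).trans ⟨x1, e1.symm⟩
    rw [hg] at h3
    have h4 := congrArg List.length e2
    have h5 := congrArg List.length ht
    simp only [List.length_append, List.length_cons, List.length_nil] at *
    omega
  · obtain ⟨p, x1, y1, e1, e2, e3⟩ := split g.toWord z.toWord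
    have h2 := dist_eq e1 e2 e3
    rcases List.eq_nil_or_concat x1 with h0 | ⟨x1', c', h0⟩
    · exfalso
      apply hz
      rw [e1, h0, List.append_nil]
      exact ⟨y1, e2.symm⟩
    · rw [List.concat_eq_append] at h0
      rw [h0] at e1 e3 h2
      have e4 : w = p ++ x1' := by
        rw [hg] at e1
        have : w ++ [c] = (p ++ x1') ++ [c'] := by rw [e1]; simp
        exact (List.append_inj' this rfl).1
      have h1 : ((mk w)⁻¹ * z).norm = x1'.length + y1.length := by
        refine dist_eq (p := p) (by rw [hw, e4]) e2 ?_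
        intro a ha b hb
        refine e3 a ?_ b hb
        cases x1' with
        | nil => simp at ha
        | cons u v => simpa using ha
      rw [List.length_append, List.length_singleton] at h2
      omega

lemma ball_par {g h : FreeGroup X} {w : List (X × Bool)} {c : X × Bool}
    (hg : g.toWord = w ++ [c]) (hh : h ≠ g) (hn : h.norm ≤ g.norm) (R : ℕ) :
    ball R g ∩ ball R h ⊆ ball R (mk w) := by
  rintro z ⟨h1, h2⟩
  have hp : ¬ (g.toWord <+: h.toWord) := by
    intro hp
    apply hh
    have := hp.eq_of_length_le hn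
    exact toWord_injective this.symm
  exact (par hg hp z).trans (max_le h1 h2)

lemma bd_zero {L : Type} [AddCommGroup L] : bd (0 : X × FreeGroup X →₀ L) = 0 := by
  simp [bd]

lemma bd_add {L : Type} [AddCommGroup L] (c c' : X × FreeGroup X →₀ L) :
    bd (c + c') = bd c + bd c' := by
  unfold bd
  refine Finsupp.sum_add_index' ?_ ?_
  · intro a; simp
  · intro a b b'
    simp only [Finsupp.single_add]
    abel

lemma bd_single {L : Type} [AddCommGroup L] (s : X) (g : FreeGroup X) (l : L) :
    bd (Finsupp.single (s, g) l) = Finsupp.single g l - Finsupp.single (g * FreeGroup.of s) l := by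
  unfold bd
  rw [Finsupp.sum_single_index]
  simp

/-- moving one value -/
lemma move {L : Type} [AddCommGroup L] (U : Set (FreeGroup X) → AddSubgroup L)
    (R : ℕ) (g : FreeGroup X) (w : List (X × Bool))
    (c : X × Bool) (hg : g.toWord = w ++ [c]) (l : L) (hl : l ∈ U (ball R g ∩ ball R (mk w))) :
    ∃ e : X × FreeGroup X →₀ L,
      (∀ s g, e (s, g) ∈ U (ball R g ∩ ball R (g * FreeGroup.of s))) ∧
      bd e = Finsupp.single g l - Finsupp.single (mk w) l := by
  have eg : g = mk w * mk [c] := by rw [mul_mk, ← hg, mk_toWord]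
  rcases c with ⟨s, b⟩
  cases b with
  | true =>
    have eg' : mk w * FreeGroup.of s = g := eg.symm
    refine ⟨Finsupp.single (s, mk w) (-l), ?_, ?_⟩
    · intro s' g'
      by_cases h : (s, mk w) = (s', g')
      · rw [← h, Finsupp.single_eq_same]
        obtain ⟨h1, h2⟩ := Prod.mk.injEq _ _ _ _ ▸ h
        rw [← h1, ← h2, eg', Set.inter_comm]
        exact neg_mem hl
      · rw [Finsupp.single_apply, if_neg h]
        exact zero_mem _
    · rw [bd_single, eg', Finsupp.single_neg, Finsupp.single_neg]
      abel
  | false =>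
    have eg' : g * FreeGroup.of s = mk w := by
      rw [eg]
      have : mk [(s, false)] = (FreeGroup.of s)⁻¹ := rfl
      rw [this]
      group
    refine ⟨Finsupp.single (s, g) l, ?_, ?_⟩
    · intro s' g'
      by_cases h : (s, g) = (s', g')
      · rw [← h, Finsupp.single_eq_same]
        obtain ⟨h1, h2⟩ := Prod.mk.injEq _ _ _ _ ▸ h
        rw [← h1, ← h2, eg']
        exact hl
      · rw [Finsupp.single_apply, if_neg h]
        exact zero_mem _
    · rw [bd_single, eg']

theorem exact_aux {L : Type} [AddCommGroup L] (U : Set (FreeGroup X) → AddSubgroup L)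
    (hU : ∀ A A', A ⊆ A' → U A ≤ U A')
    (hI : ∀ A A' x, x ∈ U A → x ∈ U A' → x ∈ U (A ∩ A')) (R : ℕ) :
    ∀ (N : ℕ) (f : FreeGroup X →₀ L), ∑ g ∈ f.support, g.norm ≤ N →
      (∀ g, f g ∈ U (ball R g)) → (f.sum fun _ l => l) = 0 →
      ∃ c : X × FreeGroup X →₀ L,
        (∀ s g, c (s, g) ∈ U (ball R g ∩ ball R (g * FreeGroup.of s))) ∧ bd c = f := by
  intro N
  induction N with
  | zero =>
    intro f hN hf h0
    have h1 : ∀ g ∈ f.support, g = 1 := by
      intro g hg
      have := (Finset.sum_eq_zero_iff.mp (Nat.le_zero.mp hN)) g hg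
      exact norm_eq_zero.mp this
    have hf0 : f = 0 := by
      have hs : f = Finsupp.single 1 (f 1) := by
        ext g
        by_cases hg : g = 1
        · subst hg; simp
        · rw [Finsupp.single_apply, if_neg (Ne.symm hg)]
          by_contra hcon
          exact hg (h1 g (Finsupp.mem_support_iff.mpr hcon))
      rw [hs, Finsupp.sum_single_index rfl] at h0
      rw [hs, h0]; simp
    refine ⟨0, fun s g => zero_mem _, ?_⟩
    rw [bd_zero, hf0]
  | succ N ih =>
    intro f hN hf h0
    by_cases hle : ∑ g ∈ f.support, g.norm ≤ N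
    · exact ih f hle hf h0
    have hne : f.support.Nonempty := by
      rw [Finset.nonempty_iff_ne_empty]
      intro h
      rw [h] at hle
      simp at hle
    obtain ⟨g, hg, hmax⟩ := Finset.exists_max_image f.support FreeGroup.norm hne
    have hg1 : g ≠ 1 := by
      intro h
      apply hle
      have : ∑ g ∈ f.support, g.norm = 0 := by
        apply Finset.sum_eq_zero
        intro x hx
        have := hmax x hx
        rw [h, FreeGroup.norm_one] at this
        omega
      omega
    have hw0 : g.toWord ≠ [] := by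
      rw [ne_eq, toWord_eq_nil_iff]; exact hg1
    obtain ⟨w, c, hwc⟩ : ∃ w c, g.toWord = w ++ [c] := by
      rcases List.eq_nil_or_concat g.toWord with h | ⟨w, c, h⟩
      · exact absurd h hw0
      · exact ⟨w, c, by rw [h, List.concat_eq_append]⟩
    set g' := mk w with hg'
    have hnorm : g'.norm + 1 = g.norm := by
      rw [FreeGroup.norm, FreeGroup.norm, hwc, hg', toWord_mk_left hwc]; simp
    have hgg : g' ≠ g := by
      intro h; rw [h] at hnorm; omega
    -- the value at `g`
    have hval : f g ∈ U (ball R g ∩ ball R g') := by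
      have h1 : f g = -∑ h ∈ f.support.erase g, f h := by
        rw [Finsupp.sum, ← Finset.add_sum_erase _ _ hg] at h0
        exact eq_neg_of_add_eq_zero_left h0
      have h2 : f g ∈ U (⋃ h ∈ f.support.erase g, ball R h) := by
        rw [h1]
        refine neg_mem (sum_mem ?_)
        intro h hh
        exact hU _ _ (Set.subset_biUnion_of_mem (u := fun h => ball R h) hh) (hf h)
      have h3 := hI _ _ _ (hf g) h2
      refine hU _ _ ?_ h3
      rintro z ⟨z1, z2⟩
      refine ⟨z1, ?_⟩
      simp only [Set.mem_iUnion] at z2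
      obtain ⟨h, hh, z2⟩ := z2
      rw [Finset.mem_erase] at hh
      exact ball_par hwc hh.1 (hmax h hh.2) R ⟨z1, z2⟩
    obtain ⟨e, he1, he2⟩ := move U R g w c hwc (f g) hval
    set f' : FreeGroup X →₀ L := f - (Finsupp.single g (f g) - Finsupp.single g' (f g)) with hf'
    have f'g : f' g = 0 := by
      rw [hf']
      simp [Finsupp.single_apply, hgg]
    have f'o : ∀ h, h ≠ g → h ≠ g' → f' h = f h := by
      intro h h1 h2
      rw [hf']
      simp [Finsupp.single_apply, Ne.symm h1, Ne.symm h2]
    have f'g' : f' g' = f g' + f g := by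
      rw [hf']
      simp [Finsupp.single_apply, Ne.symm hgg]
    have hsup : f'.support ⊆ insert g' (f.support.erase g) := by
      intro h hh
      rw [Finsupp.mem_support_iff] at hh
      rw [Finset.mem_insert, Finset.mem_erase, Finsupp.mem_support_iff]
      by_cases h1 : h = g'
      · exact Or.inl h1
      · right
        have h2 : h ≠ g := by
          intro h2; rw [h2] at hh; exact hh f'g
        refine ⟨h2, ?_⟩
        rw [f'o h h2 h1] at hh
        exact hh
    have hsum : ∑ g ∈ f'.support, g.norm ≤ N := by
      have h1 : ∑ g ∈ f'.support, g.norm ≤ ∑ g ∈ insert g' (f.support.erase g), g.norm :=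
        Finset.sum_le_sum_of_subset hsup
      have h2 : ∑ g ∈ insert g' (f.support.erase g), g.norm ≤
          g'.norm + ∑ g ∈ f.support.erase g, g.norm := by
        by_cases hmem : g' ∈ f.support.erase g
        · rw [Finset.insert_eq_of_mem hmem]; omega
        · rw [Finset.sum_insert hmem]
      have h3 := Finset.add_sum_erase f.support FreeGroup.norm hg
      omega
    have hmem' : ∀ h, f' h ∈ U (ball R h) := by
      intro h
      by_cases h1 : h = g'
      · rw [h1, f'g']
        exact add_mem (hf g') (hU _ _ Set.inter_subset_right hval)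
      · by_cases h2 : h = g
        · rw [h2, f'g]; exact zero_mem _
        · rw [f'o h h2 h1]; exact hf h
    have hs0 : (f'.sum fun _ l => l) = 0 := by
      have key : ∀ k : FreeGroup X →₀ L, (k.sum fun _ l => l) =
          (Finsupp.liftAddHom (fun _ : FreeGroup X => AddMonoidHom.id L)) k := by
        intro k; rfl
      rw [key, hf', map_sub, map_sub, ← key f, h0]
      simp
    obtain ⟨c', hc1, hc2⟩ := ih f' hsum hmem' hs0
    refine ⟨c' + e, ?_, ?_⟩
    · intro s x
      rw [Finsupp.add_apply]
      exact add_mem (hc1 s x) (he1 s x)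
    · rw [bd_add, hc2, he2, hf']
      abel

theorem t_EXACT : Pool.Agent.Helper19.KZ.S_EXACT := by
  intro X L _ U hU hI R f hf h0
  exact exact_aux U hU hI R _ f le_rfl hf h0

end Pool.Agent.Helper71.KZ
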