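import Pool.Agent.Helper71.KZ.Exact

/-! # Piece INJ of helper19 / helper5's project KZ -/

set_option autoImplicit false

namespace Pool.Agent.Helper71.KZ

open scoped Classical
open FreeGroup Pool.Agent.Helper19.KZ

variable {X : Type}

lemma edge (x : FreeGroup X) (s : X) :
    (x * FreeGroup.of s).toWord = x.toWord ++ [(s, true)] ∨
      x.toWord = (x * FreeGroup.of s).toWord ++ [(s, false)] := by
  by_cases h : ∃ w, x.toWord = w ++ [(s, false)]
  · right
    obtain ⟨w, hw⟩ := h
    have ex : x = mk w * (FreeGroup.of s)⁻¹ := by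
      have : (FreeGroup.of s)⁻¹ = mk [(s, false)] := rfl
      rw [this, mul_mk, ← hw, mk_toWord]
    have : x * FreeGroup.of s = mk w := by rw [ex]; group
    rw [this, toWord_mk_left hw, hw]
  · left
    have hr : FreeGroup.IsReduced (x.toWord ++ [(s, true)]) := by
      have hx : FreeGroup.IsReduced x.toWord := isReduced_toWord
      unfold FreeGroup.IsReduced at *
      rw [List.isChain_append]
      refine ⟨hx, by simp, ?_⟩
      intro a ha b hb e
      simp only [List.head?_cons, Option.mem_def, Option.some.injEq] at hb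
      subst hb
      by_contra hcon
      apply h
      rcases a with ⟨a1, a2⟩
      simp only at e hcon
      subst e
      have : a2 = false := by cases a2 <;> simp_all
      subst this
      rcases List.eq_nil_or_concat x.toWord with h0 | ⟨w, c, h0⟩
      · rw [h0] at ha; simp at ha
      · rw [List.concat_eq_append] at h0
        rw [h0] at ha
        simp only [List.getLast?_append, List.getLast?_singleton, Option.some_or,
          Option.mem_def, Option.some.injEq] at ha
        exact ⟨w, by rw [h0, ha]⟩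
    have : x * FreeGroup.of s = mk (x.toWord ++ [(s, true)]) := by
      rw [← mul_mk, mk_toWord]; rfl
    rw [this, toWord_mk, hr.reduce_eq]

theorem t_INJ : Pool.Agent.Helper19.KZ.S_INJ := by
  intro X L _ c hc
  by_contra hne
  -- the far end point
  have hfar : ∀ p : X × FreeGroup X, ∃ u : FreeGroup X, ∃ v : FreeGroup X, ∃ b : Bool,
      u.toWord = v.toWord ++ [(p.1, b)] ∧
      ((b = true ∧ p.2 = v ∧ p.2 * FreeGroup.of p.1 = u) ∨
        (b = false ∧ p.2 = u ∧ p.2 * FreeGroup.of p.1 = v)) := by
    intro p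
    rcases edge p.2 p.1 with h | h
    · exact ⟨_, _, true, h, Or.inl ⟨rfl, rfl, rfl⟩⟩
    · exact ⟨_, _, false, h, Or.inr ⟨rfl, rfl, rfl⟩⟩
  choose F V B h1 h2 using hfar
  have hn : ∀ p, (V p).norm + 1 = (F p).norm := by
    intro p
    rw [FreeGroup.norm, FreeGroup.norm, h1 p]; simp
  have hinj : ∀ p q, F p = F q → p = q := by
    intro p q h
    have e1 := h1 p
    rw [h, h1 q] at e1
    obtain ⟨e2, e3⟩ := List.append_inj' e1 rfl
    have e4 : V q = V p := toWord_injective e2
    simp only [List.cons.injEq, Prod.mk.injEq, and_true] at e3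
    rcases h2 p with ⟨b1, b2, b3⟩ | ⟨b1, b2, b3⟩ <;> rcases h2 q with ⟨c1, c2, c3⟩ | ⟨c1, c2, c3⟩
    · exact Prod.ext e3.1.symm (by rw [b2, c2, e4])
    · rw [b1, c1] at e3; simp at e3
    · rw [b1, c1] at e3; simp at e3
    · exact Prod.ext e3.1.symm (by rw [b2, c2, h])
  have hs : c.support.Nonempty := Finsupp.support_nonempty_iff.mpr hne
  obtain ⟨p, hp, hmax⟩ := Finset.exists_max_image c.support (fun p => (F p).norm) hs
  have hval : (bd c) (F p) = 0 := by rw [hc]; rfl
  rw [bd, Finsupp.sum, Finsupp.finsetSum_apply, ← Finset.add_sum_erase _ _ hp] at hval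
  have hrest : ∑ q ∈ c.support.erase p,
      (Finsupp.single q.2 (c q) - Finsupp.single (q.2 * FreeGroup.of q.1) (c q)) (F p) = 0 := by
    apply Finset.sum_eq_zero
    intro q hq
    rw [Finset.mem_erase] at hq
    have hF : F q ≠ F p := fun h => hq.1 (hinj _ _ h)
    have hV : V q ≠ F p := by
      intro h
      have a1 := hn q
      have a2 := hmax q hq.2
      rw [h] at a1
      omega
    have hA : q.2 ≠ F p ∧ q.2 * FreeGroup.of q.1 ≠ F p := by
      rcases h2 q with ⟨_, b2, b3⟩ | ⟨_, b2, b3⟩
      · rw [b3]; exact ⟨by rw [b2]; exact hV, hF⟩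
      · rw [b3]; exact ⟨by rw [b2]; exact hF, hV⟩
    rw [Finsupp.sub_apply, Finsupp.single_apply, Finsupp.single_apply, if_neg hA.1, if_neg hA.2,
      sub_zero]
  rw [hrest, add_zero] at hval
  have hVF : V p ≠ F p := by
    intro h
    have a1 := hn p
    rw [h] at a1
    omega
  apply Finsupp.mem_support_iff.mp hp
  rcases h2 p with ⟨_, b2, b3⟩ | ⟨_, b2, b3⟩
  · rw [b3, Finsupp.sub_apply, Finsupp.single_apply, Finsupp.single_apply,
      if_neg (by rw [b2]; exact hVF), if_pos rfl, zero_sub, neg_eq_zero] at hval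
    exact hval
  · rw [b3, Finsupp.sub_apply, Finsupp.single_apply, Finsupp.single_apply,
      if_pos b2, if_neg hVF, sub_zero] at hval
    exact hval

end Pool.Agent.Helper71.KZ
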